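import Pool.Agent.Run7.h717.SA.Iface

/-! # Piece DEN of the project SA (helper67) -/

set_option autoImplicit false

open MeasureTheory ProbabilityTheory
open scoped ENNReal

namespace Pool.Agent.Run7.h67.SA

open Pool.Agent.Run7.h717.SA

/-! ### product densities (as in `Pool/Agent/K1H9/RP/Basic.lean`) -/

theorem lintegral_fin_prod {n : ℕ} {E : Type*} [MeasurableSpace E] (μ : Fin n → Measure E)
    [∀ i, SigmaFinite (μ i)] (f : Fin n → E → ℝ≥0∞) (hf : ∀ i, Measurable (f i)) :
    ∫⁻ x : Fin n → E, ∏ i, f i (x i) ∂(Measure.pi μ) = ∏ i, ∫⁻ x, f i x ∂(μ i) := by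
  induction n with
  | zero => simp
  | succ n n_ih =>
      calc
        _ = ∫⁻ x : E × (Fin n → E),
            f 0 x.1 * ∏ i : Fin n, f (Fin.succ i) (x.2 i)
            ∂((μ 0).prod (Measure.pi (fun i ↦ μ i.succ))) := by
          rw [← ((measurePreserving_piFinSuccAbove μ 0).symm).lintegral_comp_emb
            (MeasurableEquiv.measurableEmbedding _)]
          simp_rw [MeasurableEquiv.piFinSuccAbove_symm_apply, Fin.insertNthEquiv,
            Fin.prod_univ_succ, Fin.insertNth_zero, Equiv.coe_fn_mk, Fin.cons_succ,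
            Fin.zero_succAbove, cast_eq, Fin.cons_zero]
        _ = (∫⁻ x, f 0 x ∂μ 0)
            * ∏ i : Fin n, ∫⁻ (x : E), f (Fin.succ i) x ∂(μ i.succ) := by
          rw [← n_ih (fun i => μ i.succ) (fun i => f i.succ) (fun i => hf _)]
          exact lintegral_prod_mul (hf 0).aemeasurable (Finset.measurable_prod _ (fun i _ =>
            (hf _).comp (measurable_pi_apply i))).aemeasurable
        _ = ∏ i, ∫⁻ x, f i x ∂(μ i) := by rw [Fin.prod_univ_succ]

theorem pi_withDensity {n : ℕ} {E : Type*} [MeasurableSpace E] (ν : Measure E)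
    [SigmaFinite ν] (g : E → ℝ≥0∞) (hg : Measurable g) [SigmaFinite (ν.withDensity g)] :
    Measure.pi (fun _ : Fin n => ν.withDensity g) =
      (Measure.pi (fun _ : Fin n => ν)).withDensity (fun y => ∏ i, g (y i)) := by
  apply Measure.pi_eq
  intro s hs
  rw [withDensity_apply _ (MeasurableSet.univ_pi hs), Measure.restrict_pi_pi,
    lintegral_fin_prod _ _ (fun _ => hg)]
  apply Finset.prod_congr rfl
  intro i _
  rw [withDensity_apply _ (hs i)]

/-- the constant -/
noncomputable def cc : ℝ := (Real.sqrt (2 * Real.pi))⁻¹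

theorem cc_pos : 0 < cc := by
  have := Real.pi_pos
  unfold cc; positivity

/-- the density of the standard normal law -/
noncomputable def g1 (y : ℝ) : ℝ≥0∞ := ENNReal.ofReal (cc * Real.exp (-(y ^ 2) / 2))

theorem g1_meas : Measurable g1 := by unfold g1; fun_prop

theorem gauss_eq : gaussianReal 0 1 = (volume : Measure ℝ).withDensity g1 := by
  rw [gaussianReal_of_var_ne_zero 0 one_ne_zero]
  congr 1
  funext y
  rw [gaussianPDF_def, gaussianPDFReal_def]
  simp [g1, cc]

/-- Gaussian matrices -/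
noncomputable def PP (n d : ℕ) : Measure (Fin n → Fin d → ℝ) :=
  Measure.pi fun _ => Measure.pi fun _ => gaussianReal 0 1

instance (n d : ℕ) : IsProbabilityMeasure (PP n d) := by unfold PP; infer_instance

/-- the density -/
noncomputable def qd (n d : ℕ) (x : Fin n → Fin d → ℝ) : ℝ≥0∞ := ∏ i, ∏ j, g1 (x i j)

theorem qd_meas (n d : ℕ) : Measurable (qd n d) := by
  unfold qd
  refine Finset.measurable_prod _ fun i _ => Finset.measurable_prod _ fun j _ => ?_
  exact g1_meas.comp (by fun_prop)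

theorem PP_eq (n d : ℕ) :
    PP n d = (volume : Measure (Fin n → Fin d → ℝ)).withDensity (qd n d) := by
  have hs1 : SigmaFinite ((volume : Measure ℝ).withDensity g1) := by
    rw [← gauss_eq]; infer_instance
  have h1 : (Measure.pi fun _ : Fin d => gaussianReal 0 1) =
      (volume : Measure (Fin d → ℝ)).withDensity (fun x => ∏ j, g1 (x j)) := by
    rw [gauss_eq, pi_withDensity _ _ g1_meas]; rfl
  have hs2 : SigmaFinite
      ((volume : Measure (Fin d → ℝ)).withDensity (fun x => ∏ j, g1 (x j))) := by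
    rw [← h1]; infer_instance
  have hm2 : Measurable fun x : Fin d → ℝ => ∏ j, g1 (x j) :=
    Finset.measurable_prod _ fun j _ => g1_meas.comp (measurable_pi_apply j)
  unfold PP
  rw [h1, pi_withDensity _ _ hm2]
  rfl

theorem qd_eq (n d : ℕ) (x : Fin n → Fin d → ℝ) :
    qd n d x = ENNReal.ofReal (cc ^ (n * d) * Real.exp (-(∑ i, ∑ j, x i j ^ 2) / 2)) := by
  unfold qd g1
  have hc := cc_pos
  rw [Finset.prod_congr rfl fun i _ =>
    (ENNReal.ofReal_prod_of_nonneg fun j _ => (by positivity)).symm,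
    ← ENNReal.ofReal_prod_of_nonneg fun i _ => Finset.prod_nonneg fun j _ => by positivity]
  congr 1
  rw [Finset.prod_congr rfl fun i _ => Finset.prod_mul_distrib, Finset.prod_mul_distrib]
  congr 1
  · simp only [Finset.prod_const, Finset.card_univ, Fintype.card_fin]
    rw [← pow_mul, mul_comm]
  · rw [Finset.prod_congr rfl fun i _ => (Real.exp_sum _ _).symm, ← Real.exp_sum]
    congr 1
    rw [Finset.sum_congr rfl fun i _ => (Finset.sum_div _ _ _).symm, ← Finset.sum_div]
    congr 1
    rw [← Finset.sum_neg_distrib]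
    exact Finset.sum_congr rfl fun i _ => Finset.sum_neg_distrib _ |>.trans rfl

/-! ### linear substitutions -/

instance haar (n d : ℕ) : (volume : Measure (Fin n → Fin d → ℝ)).IsAddHaarMeasure := by
  have h : ∀ _ : Fin n, (volume : Measure (Fin d → ℝ)).IsAddHaarMeasure := fun _ => inferInstance
  exact Measure.pi.isAddHaarMeasure (fun _ : Fin n => (volume : Measure (Fin d → ℝ)))

theorem cov {n d : ℕ} (f : (Fin n → Fin d → ℝ) →ₗ[ℝ] (Fin n → Fin d → ℝ))
    (hf : LinearMap.det f ≠ 0) (h : (Fin n → Fin d → ℝ) → ℝ≥0∞) (hm : Measurable h) :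
    ∫⁻ x, h (f x) = ENNReal.ofReal |(LinearMap.det f)⁻¹| * ∫⁻ x, h x := by
  rw [← lintegral_map hm (LinearMap.continuous_of_finiteDimensional f).measurable,
    Measure.map_linearMap_addHaar_eq_smul_addHaar _ hf, lintegral_smul_measure, smul_eq_mul]

/-- the product of matrices -/
def mm' {k d : ℕ} (M : Fin k → Fin d → ℝ) (U : Fin d → Fin d → ℝ) : Fin k → Fin d → ℝ :=
  fun i j => ∑ l, M i l * U l j

theorem mm'_eq {k d : ℕ} (M : Fin k → Fin d → ℝ) (U : Fin d → Fin d → ℝ) :
    Matrix.of (mm' M U) = Matrix.of M * Matrix.of U := by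
  ext i j
  simp [mm', Matrix.mul_apply]

/-- multiplication on the right -/
noncomputable def RU {k d : ℕ} (U : Fin d → Fin d → ℝ) :
    (Fin k → Fin d → ℝ) →ₗ[ℝ] (Fin k → Fin d → ℝ) :=
  LinearMap.pi fun i => (Matrix.toLin' (Matrix.of U).transpose).comp (LinearMap.proj i)

theorem RU_apply {k d : ℕ} (U : Fin d → Fin d → ℝ) (M : Fin k → Fin d → ℝ) :
    RU U M = mm' M U := by
  funext i j
  simp [RU, mm', Matrix.toLin'_apply, Matrix.mulVec, dotProduct, mul_comm]

theorem RU_det {k d : ℕ} (U : Fin d → Fin d → ℝ) :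
    LinearMap.det (RU (k := k) U) = (Matrix.of U).det ^ k := by
  unfold RU
  rw [LinearMap.det_pi]
  simp [LinearMap.det_toLin']

/-- transposition -/
def tr (d : ℕ) : (Fin d → Fin d → ℝ) ≃ₗ[ℝ] (Fin d → Fin d → ℝ) where
  toFun M i j := M j i
  invFun M i j := M j i
  map_add' _ _ := rfl
  map_smul' _ _ := rfl
  left_inv _ := rfl
  right_inv _ := rfl

/-- multiplication on the left -/
noncomputable def LB {d : ℕ} (B : Fin d → Fin d → ℝ) :
    (Fin d → Fin d → ℝ) →ₗ[ℝ] (Fin d → Fin d → ℝ) :=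
  ((tr d : (Fin d → Fin d → ℝ) →ₗ[ℝ] (Fin d → Fin d → ℝ))) ∘ₗ
    (RU (k := d) (fun i j => B j i)) ∘ₗ
    ((tr d).symm : (Fin d → Fin d → ℝ) →ₗ[ℝ] (Fin d → Fin d → ℝ))

theorem LB_apply {d : ℕ} (B U : Fin d → Fin d → ℝ) : LB B U = mm' B U := by
  funext i j
  show RU (k := d) (fun i j => B j i) (fun i j => U j i) j i = _
  rw [RU_apply]
  simp [mm', mul_comm]

theorem LB_det {d : ℕ} (B : Fin d → Fin d → ℝ) :
    LinearMap.det (LB B) = (Matrix.of B).det ^ d := by
  unfold LB
  rw [LinearMap.det_conj, RU_det]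
  congr 1
  exact Matrix.det_transpose (Matrix.of B)

/-! ### the density -/

/-- the function of the second substitution -/
noncomputable def GF (d k : ℕ) (U : Fin d → Fin d → ℝ) : ℝ :=
  cc ^ (d * d + k * d) * Real.exp (-(∑ i, ∑ j, U i j ^ 2) / 2) * |(Matrix.of U).det| ^ k

theorem GF_meas (d k : ℕ) : Measurable (GF d k) := by
  have : Continuous (GF d k) := by
    unfold GF
    have h1 : Continuous fun U : Fin d → Fin d → ℝ => (Matrix.of U).det :=
      Continuous.matrix_det continuous_id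
    fun_prop
  exact this.measurable

/-- the determinant of the Gram matrix -/
noncomputable def gd {d k : ℕ} (M : Fin k → Fin d → ℝ) : ℝ :=
  (1 + Matrix.of M * (Matrix.of M).transpose).det

open scoped MatrixOrder ComplexOrder Matrix.Norms.L2Operator in
theorem psd_sq {d : ℕ} {A : Matrix (Fin d) (Fin d) ℝ} (hA : A.PosSemidef) :
    ∃ B : Matrix (Fin d) (Fin d) ℝ, A = B.transpose * B := by
  obtain ⟨B, hB⟩ := CStarAlgebra.nonneg_iff_eq_star_mul_self.mp hA.nonneg
  refine ⟨B, ?_⟩
  rw [hB, Matrix.star_eq_conjTranspose, Matrix.conjTranspose_eq_transpose_of_trivial]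

theorem chol {d k : ℕ} (M : Fin k → Fin d → ℝ) : ∃ B : Fin d → Fin d → ℝ,
    (Matrix.of B).det ^ 2 = gd M ∧ 0 < gd M ∧
    ∀ U : Fin d → Fin d → ℝ, ∑ i, ∑ j, mm' B U i j ^ 2 =
      ∑ i, ∑ j, U i j ^ 2 + ∑ i, ∑ j, mm' M U i j ^ 2 := by
  classical
  set A : Matrix (Fin d) (Fin d) ℝ := 1 + (Matrix.of M).transpose * Matrix.of M with hA
  have hP : A.PosDef := by
    have h1 : (1 : Matrix (Fin d) (Fin d) ℝ).PosDef := Matrix.PosDef.one
    have h2 : ((Matrix.of M).transpose * Matrix.of M).PosSemidef := by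
      have := Matrix.posSemidef_conjTranspose_mul_self (Matrix.of M)
      rwa [Matrix.conjTranspose_eq_transpose_of_trivial] at this
    exact h1.add_posSemidef h2
  obtain ⟨B, hB⟩ := psd_sq hP.posSemidef
  have hdet : gd M = A.det := by
    unfold gd
    rw [hA, Matrix.det_one_add_mul_comm]
  refine ⟨fun i j => B i j, ?_, ?_, ?_⟩
  · have e : Matrix.of (fun i j => B i j) = B := rfl
    rw [e, hdet, hB, Matrix.det_mul, Matrix.det_transpose, sq]
  · rw [hdet]; exact hP.det_pos
  · intro U
    have key : ∀ {m : ℕ} (X : Fin m → Fin d → ℝ), ∑ i, ∑ j, X i j ^ 2 =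
        ((Matrix.of X).transpose * Matrix.of X).trace := by
      intro m X
      simp only [Matrix.trace, Matrix.diag_apply, Matrix.mul_apply, Matrix.transpose_apply,
        Matrix.of_apply]
      rw [Finset.sum_comm]
      exact Finset.sum_congr rfl fun i _ => Finset.sum_congr rfl fun j _ => by ring
    rw [key, key, key, mm'_eq, mm'_eq, ← Matrix.trace_add]
    congr 1
    have e : Matrix.of (fun i j => B i j) = B := rfl
    rw [e, Matrix.transpose_mul, Matrix.transpose_mul]
    calc (Matrix.of U).transpose * B.transpose * (B * Matrix.of U) =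
        (Matrix.of U).transpose * (B.transpose * B) * Matrix.of U := by
          simp only [Matrix.mul_assoc]
      _ = (Matrix.of U).transpose * A * Matrix.of U := by rw [hB]
      _ = _ := by
        rw [hA, Matrix.mul_add, Matrix.add_mul, Matrix.mul_one]
        simp only [Matrix.mul_assoc]

theorem inner_int {d k : ℕ} (M : Fin k → Fin d → ℝ) :
    ∫⁻ U : Fin d → Fin d → ℝ, qd d d U * ENNReal.ofReal (|(Matrix.of U).det| ^ k) *
      qd k d (mm' M U) =
    (∫⁻ U, ENNReal.ofReal (GF d k U)) *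
      ENNReal.ofReal (gd M ^ (-(((d + k : ℕ) : ℝ)) / 2)) := by
  obtain ⟨B, hB, hpos, hBU⟩ := chol M
  set b : ℝ := (Matrix.of B).det with hb
  have hc := cc_pos
  have hb0 : b ≠ 0 := by
    intro h
    rw [h] at hB
    have : (0 : ℝ) ^ 2 = 0 := by norm_num
    rw [this] at hB
    linarith
  have hab : 0 < |b| := abs_pos.2 hb0
  have h1 : ∀ U : Fin d → Fin d → ℝ, qd d d U * ENNReal.ofReal (|(Matrix.of U).det| ^ k) *
      qd k d (mm' M U) = ENNReal.ofReal ((|b| ^ k)⁻¹) * ENNReal.ofReal (GF d k (LB B U)) := by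
    intro U
    rw [qd_eq, qd_eq, ← ENNReal.ofReal_mul (by positivity), ← ENNReal.ofReal_mul (by positivity),
      ← ENNReal.ofReal_mul (by positivity)]
    congr 1
    unfold GF
    rw [LB_apply, hBU U, mm'_eq, Matrix.det_mul, ← hb, abs_mul, mul_pow]
    have e : -(∑ i, ∑ j, U i j ^ 2 + ∑ i, ∑ j, mm' M U i j ^ 2) / 2 =
      -(∑ i, ∑ j, U i j ^ 2) / 2 + -(∑ i, ∑ j, mm' M U i j ^ 2) / 2 := by ring
    rw [e, Real.exp_add, pow_add]
    field_simp
  simp only [h1]
  have hm : Measurable fun U : Fin d → Fin d → ℝ => ENNReal.ofReal (GF d k U) :=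
    (GF_meas d k).ennreal_ofReal
  have hLB : LinearMap.det (LB B) ≠ 0 := by rw [LB_det]; exact pow_ne_zero _ hb0
  have hm2 : Measurable fun U : Fin d → Fin d → ℝ => ENNReal.ofReal (GF d k (LB B U)) :=
    hm.comp (LinearMap.continuous_of_finiteDimensional (LB B)).measurable
  rw [lintegral_const_mul _ hm2, cov (LB B) hLB _ hm,
    LB_det, ← hb, ← mul_assoc, ← ENNReal.ofReal_mul (by positivity), mul_comm]
  congr 2
  rw [← hB, abs_inv, abs_pow, ← mul_inv, ← pow_add]
  have h2 : b ^ 2 = |b| ^ (2 : ℝ) := by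
    rw [← sq_abs]; exact (Real.rpow_natCast _ 2).symm
  rw [h2, ← Real.rpow_mul hab.le]
  have h3 : (2 : ℝ) * (-((d + k : ℕ) : ℝ) / 2) = -((k + d : ℕ) : ℝ) := by push_cast; ring
  rw [h3, Real.rpow_neg hab.le, Real.rpow_natCast]

/-- the quotient `V U⁻¹` -/
noncomputable def qt {d k : ℕ} (p : (Fin d → Fin d → ℝ) × (Fin k → Fin d → ℝ)) :
    Fin k → Fin d → ℝ :=
  fun i j => ((Matrix.of p.1).det)⁻¹ * (Matrix.of p.2 * (Matrix.of p.1).adjugate) i j

theorem qt_meas {d k : ℕ} : Measurable (qt (d := d) (k := k)) := by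
  have h1 : Continuous fun p : (Fin d → Fin d → ℝ) × (Fin k → Fin d → ℝ) =>
      (Matrix.of p.1).det := Continuous.matrix_det (by fun_prop : Continuous fun
        p : (Fin d → Fin d → ℝ) × (Fin k → Fin d → ℝ) => (Matrix.of p.1 : Matrix _ _ ℝ))
  have h2 : Continuous fun p : (Fin d → Fin d → ℝ) × (Fin k → Fin d → ℝ) =>
      (Matrix.of p.2 * (Matrix.of p.1).adjugate : Matrix (Fin k) (Fin d) ℝ) := by
    refine Continuous.matrix_mul ?_ (Continuous.matrix_adjugate ?_)
    · exact (continuous_snd : Continuous fun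
        p : (Fin d → Fin d → ℝ) × (Fin k → Fin d → ℝ) => p.2)
    · exact (continuous_fst : Continuous fun
        p : (Fin d → Fin d → ℝ) × (Fin k → Fin d → ℝ) => p.1)
  refine measurable_pi_lambda _ fun i => measurable_pi_lambda _ fun j => ?_
  exact h1.measurable.inv.mul (Continuous.matrix_elem h2 i j).measurable

theorem qt_mm' {d k : ℕ} {U : Fin d → Fin d → ℝ} (hU : (Matrix.of U).det ≠ 0)
    (M : Fin k → Fin d → ℝ) : qt (U, mm' M U) = M := by
  funext i j
  unfold qt
  simp only
  rw [mm'_eq, Matrix.mul_assoc, Matrix.mul_adjugate, Matrix.mul_smul, Matrix.mul_one,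
    Matrix.smul_apply, smul_eq_mul, ← mul_assoc, inv_mul_cancel₀ hU, one_mul]
  rfl

theorem mm'_qt {d k : ℕ} {U : Fin d → Fin d → ℝ} (hU : (Matrix.of U).det ≠ 0)
    (V : Fin k → Fin d → ℝ) : mm' (qt (U, V)) U = V := by
  have h : Matrix.of (mm' (qt (U, V)) U) = Matrix.of V := by
    rw [mm'_eq]
    have e : Matrix.of (qt (U, V)) =
        ((Matrix.of U).det)⁻¹ • (Matrix.of V * (Matrix.of U).adjugate) := by
      ext i j; rfl
    rw [e, Matrix.smul_mul, Matrix.mul_assoc, Matrix.adjugate_mul, Matrix.mul_smul,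
      Matrix.mul_one, smul_smul, inv_mul_cancel₀ hU, one_smul]
  exact h

theorem main {d k : ℕ} (hk : 1 ≤ k) (S : Set (Fin k → Fin d → ℝ)) (hS : MeasurableSet S) :
    ((PP d d).prod (PP k d)) {p | (Matrix.of p.1).det ≠ 0 ∧ qt p ∈ S} =
      (∫⁻ U, ENNReal.ofReal (GF d k U)) *
        ∫⁻ M in S, ENNReal.ofReal (gd M ^ (-(((d + k : ℕ) : ℝ)) / 2)) := by
  classical
  have hdetc : Continuous fun U : Fin d → Fin d → ℝ => (Matrix.of U).det :=
    Continuous.matrix_det continuous_id
  have hdet1 : Measurable fun p : (Fin d → Fin d → ℝ) × (Fin k → Fin d → ℝ) =>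
      (Matrix.of p.1).det := hdetc.measurable.comp measurable_fst
  have hT : MeasurableSet {p : (Fin d → Fin d → ℝ) × (Fin k → Fin d → ℝ) |
      (Matrix.of p.1).det ≠ 0 ∧ qt p ∈ S} :=
    (hdet1 (measurableSet_singleton (0 : ℝ)).compl).inter (qt_meas hS)
  have hmmc : Continuous fun p : (Fin d → Fin d → ℝ) × (Fin k → Fin d → ℝ) => mm' p.2 p.1 := by
    unfold mm'; fun_prop
  rw [Measure.prod_apply hT, PP_eq d d, lintegral_withDensity_eq_lintegral_mul _ (qd_meas d d)
    (measurable_measure_prodMk_left hT)]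
  simp only [Pi.mul_apply]
  -- the inner measure
  have h1 : ∀ U : Fin d → Fin d → ℝ, qd d d U * (PP k d) (Prod.mk U ⁻¹'
      {p | (Matrix.of p.1).det ≠ 0 ∧ qt p ∈ S}) =
      ∫⁻ M : Fin k → Fin d → ℝ, S.indicator (fun M => qd d d U *
        ENNReal.ofReal (|(Matrix.of U).det| ^ k) * qd k d (mm' M U)) M := by
    intro U
    by_cases hU : (Matrix.of U).det = 0
    · have e : (Prod.mk U ⁻¹' {p : (Fin d → Fin d → ℝ) × (Fin k → Fin d → ℝ) |
          (Matrix.of p.1).det ≠ 0 ∧ qt p ∈ S}) = ∅ := by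
        ext V
        simp [hU]
      rw [e, measure_empty, mul_zero, hU]
      have hk' : k ≠ 0 := by omega
      simp [hk']
    · have hslice : MeasurableSet (Prod.mk U ⁻¹' {p : (Fin d → Fin d → ℝ) × (Fin k → Fin d → ℝ) |
          (Matrix.of p.1).det ≠ 0 ∧ qt p ∈ S}) := measurable_prodMk_left hT
      have hR : LinearMap.det (RU (k := k) U) ≠ 0 := by rw [RU_det]; exact pow_ne_zero _ hU
      have h2 := cov (RU (k := k) U) hR ((Prod.mk U ⁻¹' {p | (Matrix.of p.1).det ≠ 0 ∧
        qt p ∈ S}).indicator (qd k d)) ((qd_meas k d).indicator hslice)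
      have h3 : (PP k d) (Prod.mk U ⁻¹' {p | (Matrix.of p.1).det ≠ 0 ∧ qt p ∈ S}) =
          ENNReal.ofReal (|(Matrix.of U).det| ^ k) * ∫⁻ M : Fin k → Fin d → ℝ,
            (Prod.mk U ⁻¹' {p | (Matrix.of p.1).det ≠ 0 ∧ qt p ∈ S}).indicator (qd k d)
              (RU U M) := by
        rw [h2, RU_det, ← mul_assoc, ← ENNReal.ofReal_mul (by positivity), abs_inv, abs_pow,
          mul_inv_cancel₀ (pow_ne_zero _ (abs_ne_zero.2 hU)), ENNReal.ofReal_one, one_mul,
          lintegral_indicator hslice, PP_eq, withDensity_apply _ hslice]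
      rw [h3]
      have h4 : ∀ M : Fin k → Fin d → ℝ, (Prod.mk U ⁻¹' {p | (Matrix.of p.1).det ≠ 0 ∧
          qt p ∈ S}).indicator (qd k d) (RU U M) =
          S.indicator (fun M => qd k d (mm' M U)) M := by
        intro M
        rw [RU_apply]
        by_cases hM : M ∈ S
        · rw [Set.indicator_of_mem hM, Set.indicator_of_mem]
          exact ⟨hU, by rw [qt_mm' hU]; exact hM⟩
        · rw [Set.indicator_of_notMem hM, Set.indicator_of_notMem]
          rintro ⟨-, h⟩
          rw [qt_mm' hU] at h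
          exact hM h
      simp only [h4]
      have hmU : Measurable fun M : Fin k → Fin d → ℝ => qd k d (mm' M U) :=
        (qd_meas k d).comp (hmmc.measurable.comp measurable_prodMk_left)
      rw [← mul_assoc, ← lintegral_const_mul _ (hmU.indicator hS)]
      refine lintegral_congr fun M => ?_
      by_cases hM : M ∈ S
      · rw [Set.indicator_of_mem hM, Set.indicator_of_mem hM]
      · rw [Set.indicator_of_notMem hM, Set.indicator_of_notMem hM, mul_zero]
  simp only [h1]
  have hFm : Measurable fun p : (Fin d → Fin d → ℝ) × (Fin k → Fin d → ℝ) =>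
      qd d d p.1 * ENNReal.ofReal (|(Matrix.of p.1).det| ^ k) * qd k d (mm' p.2 p.1) := by
    refine (((qd_meas d d).comp measurable_fst).mul ?_).mul ((qd_meas k d).comp hmmc.measurable)
    exact ((hdet1.abs).pow_const k).ennreal_ofReal
  have hFi : Measurable (Function.uncurry fun (U : Fin d → Fin d → ℝ) (M : Fin k → Fin d → ℝ) =>
      S.indicator (fun M => qd d d U *
        ENNReal.ofReal (|(Matrix.of U).det| ^ k) * qd k d (mm' M U)) M) := by
    have e : (Function.uncurry fun (U : Fin d → Fin d → ℝ) (M : Fin k → Fin d → ℝ) =>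
      S.indicator (fun M => qd d d U *
        ENNReal.ofReal (|(Matrix.of U).det| ^ k) * qd k d (mm' M U)) M) =
        (Prod.snd ⁻¹' S).indicator fun p : (Fin d → Fin d → ℝ) × (Fin k → Fin d → ℝ) =>
      qd d d p.1 * ENNReal.ofReal (|(Matrix.of p.1).det| ^ k) * qd k d (mm' p.2 p.1) := by
      funext p
      show S.indicator (fun M => qd d d p.1 *
        ENNReal.ofReal (|(Matrix.of p.1).det| ^ k) * qd k d (mm' M p.1)) p.2 = _
      by_cases hp : p.2 ∈ S
      · rw [Set.indicator_of_mem (show p ∈ Prod.snd ⁻¹' S from hp), Set.indicator_of_mem hp]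
      · rw [Set.indicator_of_notMem (show p ∉ Prod.snd ⁻¹' S from hp),
          Set.indicator_of_notMem hp]
    rw [e]
    exact hFm.indicator (measurable_snd hS)
  rw [lintegral_lintegral_swap hFi.aemeasurable, ← lintegral_indicator hS,
    ← lintegral_const_mul]
  · refine lintegral_congr fun M => ?_
    by_cases hM : M ∈ S
    · simp only [Set.indicator_of_mem hM]
      exact inner_int M
    · simp only [Set.indicator_of_notMem hM, mul_zero, lintegral_zero]
  · refine Measurable.indicator ?_ hS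
    refine Measurable.ennreal_ofReal ?_
    refine Measurable.pow_const ?_ _
    have : Continuous fun M : Fin k → Fin d → ℝ => gd M := by
      unfold gd
      refine Continuous.matrix_det ?_
      refine continuous_const.add (Continuous.matrix_mul ?_ (Continuous.matrix_transpose ?_))
      · exact continuous_id
      · exact continuous_id
    exact this.measurable

/-- Euclidean rows -/
def tau (n d : ℕ) (x : Fin n → Fin d → ℝ) : Fin n → E d := fun i => WithLp.toLp 2 (x i)

theorem tau_meas (n d : ℕ) : Measurable (tau n d) := by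
  unfold tau; fun_prop

theorem GG_eq (n d : ℕ) : GG n d = (PP n d).map (tau n d) := by
  unfold GG PP tau
  have h := map_pi_eq_stdGaussian (ι := Fin d)
  have h2 : ∀ i : Fin n, SigmaFinite ((Measure.pi fun _ : Fin d => gaussianReal 0 1).map
      (WithLp.toLp 2 : (Fin d → ℝ) → E d)) := fun _ => by rw [h]; infer_instance
  rw [Measure.pi_map_pi (μ := fun _ : Fin n => Measure.pi fun _ : Fin d => gaussianReal 0 1)
    (f := fun _ => (WithLp.toLp 2 : (Fin d → ℝ) → E d)) (fun _ => by fun_prop), h]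

theorem t_DEN : S_LI → S_DEN := by
  classical
  intro hLI d k hd hk
  refine ⟨∫⁻ U, ENNReal.ofReal (GF d k U), fun S hS => ?_⟩
  have hmain := main hk S hS
  unfold gd at hmain
  rw [← hmain]
  -- transfer
  let un : (n : ℕ) → (Fin n → E d) → (Fin n → Fin d → ℝ) := fun n x i j => x i j
  have hun : ∀ n, Measurable (un n) := fun n => by
    show Measurable fun (x : Fin n → E d) i j => x i j
    fun_prop
  have hdetc : Continuous fun U : Fin d → Fin d → ℝ => (Matrix.of U).det :=
    Continuous.matrix_det continuous_id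
  have hT : MeasurableSet {p : (Fin d → Fin d → ℝ) × (Fin k → Fin d → ℝ) |
      (Matrix.of p.1).det ≠ 0 ∧ qt p ∈ S} :=
    ((hdetc.measurable.comp measurable_fst) (measurableSet_singleton (0 : ℝ)).compl).inter
      (qt_meas hS)
  have hT' : MeasurableSet {p : (Fin d → E d) × (Fin k → E d) |
      (un d p.1, un k p.2) ∈ {p : (Fin d → Fin d → ℝ) × (Fin k → Fin d → ℝ) |
      (Matrix.of p.1).det ≠ 0 ∧ qt p ∈ S}} :=
    (((hun d).comp measurable_fst).prodMk ((hun k).comp measurable_snd)) hT
  have hprod : (GG d d).prod (GG k d) =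
      ((PP d d).prod (PP k d)).map (Prod.map (tau d d) (tau k d)) := by
    rw [GG_eq, GG_eq, Measure.map_prod_map _ _ (tau_meas d d) (tau_meas k d)]
  have hae : {p : (Fin d → E d) × (Fin k → E d) | ∃ M ∈ S, ∀ j, p.2 j = ∑ i, M j i • p.1 i}
      =ᵐ[(GG d d).prod (GG k d)] {p : (Fin d → E d) × (Fin k → E d) |
      (un d p.1, un k p.2) ∈ {p : (Fin d → Fin d → ℝ) × (Fin k → Fin d → ℝ) |
      (Matrix.of p.1).det ≠ 0 ∧ qt p ∈ S}} := by
    have h1 : ∀ᵐ p ∂((GG d d).prod (GG k d)), LinearIndependent ℝ p.1 :=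
      Measure.quasiMeasurePreserving_fst.ae (hLI d d le_rfl)
    filter_upwards [h1] with p hp
    apply propext
    have hdet : (Matrix.of (un d p.1)).det ≠ 0 := by
      have h2 : LinearIndependent ℝ (un d p.1) := by
        have h3 := hp.map' (WithLp.linearEquiv 2 ℝ (Fin d → ℝ)).toLinearMap
          (LinearEquiv.ker _)
        exact h3
      have h4 : IsUnit (Matrix.of (un d p.1)) :=
        Matrix.linearIndependent_rows_iff_isUnit.1 h2
      exact ((Matrix.isUnit_iff_isUnit_det _).1 h4).ne_zero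
    have hiff : ∀ M : Fin k → Fin d → ℝ, (∀ j, p.2 j = ∑ i, M j i • p.1 i) ↔
        un k p.2 = mm' M (un d p.1) := by
      intro M
      constructor
      · intro h
        funext j l
        show p.2 j l = ∑ i, M j i * p.1 i l
        rw [h j]
        simp
      · intro h j
        ext l
        have := congrFun (congrFun h j) l
        show p.2 j l = _
        have h5 : p.2 j l = ∑ i, M j i * p.1 i l := this
        rw [h5]
        simp
    show (∃ M ∈ S, ∀ j, p.2 j = ∑ i, M j i • p.1 i) ↔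
      ((Matrix.of (un d p.1)).det ≠ 0 ∧ qt (un d p.1, un k p.2) ∈ S)
    constructor
    · rintro ⟨M, hM, h⟩
      refine ⟨hdet, ?_⟩
      rw [(hiff M).1 h, qt_mm' hdet]
      exact hM
    · rintro ⟨-, h⟩
      exact ⟨_, h, (hiff _).2 (mm'_qt hdet _).symm⟩
  rw [measure_congr hae, hprod, Measure.map_apply ((tau_meas d d).prodMap (tau_meas k d)) hT']
  rfl

end Pool.Agent.Run7.h67.SA
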